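import Pool.Agent.H77RES.Fin

set_option autoImplicit false

open Polynomial Filter Topology

namespace Pool.Agent.Results.MP_32694d_nt.SylvesterDensity

/-- `f` and `g` are coprime: they share no root in `ℂ`. -/
def Coprime (f g : ℤ[X]) : Prop := ∀ z : ℂ, ¬ (aeval z f = 0 ∧ aeval z g = 0)

/-- `N` is a positive integer and `N p`, `N q` have integer coefficients, where `p, q ∈ ℚ[x]`
satisfy `p f + q g = 1`, `deg p < deg g`, `deg q < deg f`. -/
def IsDenominator (f g : ℤ[X]) (N : ℕ) : Prop :=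
  0 < N ∧ ∃ p q : ℚ[X], p * f.map (Int.castRingHom ℚ) + q * g.map (Int.castRingHom ℚ) = 1 ∧
    p.degree < g.degree ∧ q.degree < f.degree ∧
    (∃ P : ℤ[X], P.map (Int.castRingHom ℚ) = (N : ℚ) • p) ∧
    ∃ Q : ℤ[X], Q.map (Int.castRingHom ℚ) = (N : ℚ) • q

/-- `B(f,g)`: the least positive integer `N` such that `N p` and `N q` have integer
coefficients. -/
noncomputable def B (f g : ℤ[X]) : ℕ := sInf {N | IsDenominator f g N}

/-- `R(f,g) = |Res(f,g)|`, the absolute value of the determinant of the Sylvester matrix. -/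
noncomputable def R (f g : ℤ[X]) : ℕ := (resultant f g).natAbs

/-- `𝒫_k(H)`: integer polynomials of exact degree `k` with positive leading coefficient and all
coefficients in `[-H, H]`. -/
def P (k H : ℕ) : Set ℤ[X] :=
  {f | f.natDegree = k ∧ 0 < f.leadingCoeff ∧ ∀ i, |f.coeff i| ≤ (H : ℤ)}

/-- `S_{m,n}(H)`: the coprime pairs. -/
def S (m n H : ℕ) : Set (ℤ[X] × ℤ[X]) :=
  {x | x.1 ∈ P m H ∧ x.2 ∈ P n H ∧ Coprime x.1 x.2}

/-- `E_{m,n}(H)`: the coprime pairs with `B(f,g) = R(f,g)`. -/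
def E (m n H : ℕ) : Set (ℤ[X] × ℤ[X]) := {x | x ∈ S m n H ∧ B x.1 x.2 = R x.1 x.2}

/-- `ρ_{m,n}(H) = #E_{m,n}(H) / #S_{m,n}(H)`. -/
noncomputable def ρ (m n H : ℕ) : ℝ := ((E m n H).ncard : ℝ) / ((S m n H).ncard : ℝ)

/-- For all `m, n ≥ 2` the ratio `ρ_{m,n}(H)` tends to `36/π⁴ = 1/ζ(2)²` as `H → ∞`, and this
limit is smaller than `1/2`. -/
theorem result :
    (∀ m n : ℕ, 2 ≤ m → 2 ≤ n →
      Tendsto (fun H : ℕ => ρ m n H) atTop (𝓝 (36 / Real.pi ^ 4))) ∧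
    36 / Real.pi ^ 4 < (1 : ℝ) / 2 :=
  ⟨fun m n hm hn => Pool.Agent.H77RES.rho_tendsto m n hm hn, Pool.Agent.H77RES.lt_half⟩

end Pool.Agent.Results.MP_32694d_nt.SylvesterDensity
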